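import Pool.Agent.W788.NV.Stm

namespace Pool.Agent.W597.NV

open Pool.Agent.W788.NV

theorem eva_ (h : MK) (h1 : S_IN) (h2 : S_LR) : S_EVA := by
  intro V _ _ G q θ t
  constructor
  · intro g x
    have e1 := h2 (V → Fin q) ((V × Fin q) ⊕ (V × V)) (mrate G q θ) (act (V := V) (q := q))
      (fun Φ => g (Φ x)) t
    have e2 := h1 (Mp V q) (V → Fin q) ((V × Fin q) ⊕ (V × V)) (mrate G q θ)
      (mL (V := V) (q := q)) (act (V := V) (q := q)) (fun Φ => Φ x) (fun e Φ => rfl) g id t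
    exact e1.trans e2
  · intro F Φ
    have e2 := h1 (Mp V q) (Mp V q) ((V × Fin q) ⊕ (V × V)) (mrate G q θ)
      (mR (V := V) (q := q)) (mR (V := V) (q := q)) (fun Θ => fun x => Φ (Θ x))
      (fun e Θ => rfl) F id t
    exact e2.symm

end Pool.Agent.W597.NV
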