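import Pool.Agent.W184.NV.Defs
import Pool.Agent.Helper256.KM.Mertens

/-!
# Prime number estimates
-/

set_option autoImplicit false
set_option linter.all false

namespace Pool.Agent.W597.NV

open Filter Topology Finset Pool.Agent.W184.NV

/-- sum of the reciprocals of the primes up to `x` -/
noncomputable def Pr (x : ℝ) : ℝ := ∑ p ∈ (Icc 1 ⌊x⌋₊).filter Nat.Prime, (1:ℝ) / p

lemma Pr_bound : ∃ C : ℝ, 0 ≤ C ∧ ∀ x : ℝ, 3 ≤ x → |Pr x - Real.log (Real.log x)| ≤ C := by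
  obtain ⟨C, hC⟩ := Pool.Agent.Helper256.KM.mertens_inv
  have hC0 : 0 ≤ C := (abs_nonneg _).trans (hC 3 le_rfl)
  refine ⟨C + 1, by linarith, fun x hx => ?_⟩
  have h1 : 3 ≤ ⌊x⌋₊ := Nat.le_floor (by exact_mod_cast hx)
  have h2 := hC ⌊x⌋₊ h1
  have h3 : (3:ℝ) ≤ ⌊x⌋₊ := by exact_mod_cast h1
  have h4 : (⌊x⌋₊ : ℝ) ≤ x := Nat.floor_le (by linarith)
  have h5 : x < ⌊x⌋₊ + 1 := Nat.lt_floor_add_one x
  have l3 : 1 < Real.log 3 := by
    have := Real.exp_one_lt_d9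
    rw [Real.lt_log_iff_exp_lt (by norm_num)]
    linarith
  have l1 : 1 < Real.log ⌊x⌋₊ := l3.trans_le (Real.log_le_log (by norm_num) h3)
  have l2 : Real.log ⌊x⌋₊ ≤ Real.log x := Real.log_le_log (by linarith) h4
  have l4 : Real.log x - Real.log ⌊x⌋₊ ≤ 1 := by
    rw [← Real.log_div (by linarith) (by linarith)]
    have := Real.log_le_sub_one_of_pos (x := x / ⌊x⌋₊) (by positivity)
    have h6 : x / ⌊x⌋₊ ≤ 2 := by rw [div_le_iff₀ (by linarith)]; linarith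
    linarith
  have l5 : Real.log (Real.log ⌊x⌋₊) ≤ Real.log (Real.log x) := Real.log_le_log (by linarith) l2
  have l6 : Real.log (Real.log x) - Real.log (Real.log ⌊x⌋₊) ≤ 1 := by
    rw [← Real.log_div (by linarith) (by linarith)]
    have := Real.log_le_sub_one_of_pos (x := Real.log x / Real.log ⌊x⌋₊)
      (div_pos (by linarith) (by linarith))
    have h6 : Real.log x / Real.log ⌊x⌋₊ ≤ 2 := by rw [div_le_iff₀ (by linarith)]; linarith
    linarith
  have e : Pr x = ∑ p ∈ (Icc 1 ⌊x⌋₊).filter Nat.Prime, (1:ℝ) / p := rfl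
  rw [e]
  rw [abs_le] at h2 ⊢
  constructor <;> linarith [h2.1, h2.2]

lemma mem_Sm {n p : ℕ} : p ∈ Sm n ↔ p.Prime ∧ (p : ℝ) ≤ Real.exp n := by
  unfold Sm
  rw [mem_filter, mem_Icc, Nat.le_floor_iff (Real.exp_pos _).le]
  constructor
  · rintro ⟨⟨_, h1⟩, h2⟩; exact ⟨h2, h1⟩
  · rintro ⟨h1, h2⟩; exact ⟨⟨h1.one_lt.le, h2⟩, h1⟩

lemma mem_Pm {a b p : ℕ} : p ∈ Pm a b ↔ p.Prime ∧ Real.exp a < p ∧ (p : ℝ) ≤ Real.exp b := by
  unfold Pm
  rw [mem_filter, mem_Icc, Nat.le_floor_iff (Real.exp_pos _).le]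
  constructor
  · rintro ⟨⟨_, h1⟩, h2, h3⟩; exact ⟨h2, h3, h1⟩
  · rintro ⟨h1, h2, h3⟩; exact ⟨⟨h1.one_lt.le, h3⟩, h1, h2⟩

lemma Pm_eq {m n : ℕ} : Pm m n = Sm n \ Sm m := by
  ext p
  rw [mem_Pm, Finset.mem_sdiff, mem_Sm, mem_Sm]
  constructor
  · rintro ⟨h1, h2, h3⟩
    exact ⟨⟨h1, h3⟩, fun h => not_le.2 h2 h.2⟩
  · rintro ⟨⟨h1, h2⟩, h3⟩
    exact ⟨h1, not_le.1 fun h => h3 ⟨h1, h⟩, h2⟩

lemma Sm_sub {m n : ℕ} (h : m ≤ n) : Sm m ⊆ Sm n := by
  intro p hp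
  rw [mem_Sm] at *
  exact ⟨hp.1, hp.2.trans (Real.exp_le_exp.2 (by exact_mod_cast h))⟩

lemma sum_Sm (n : ℕ) : ∑ p ∈ Sm n, (1 : ℝ) / p = Pr (Real.exp n) := by
  unfold Pr
  refine sum_congr ?_ fun _ _ => rfl
  ext p
  rw [mem_Sm, mem_filter, mem_Icc, Nat.le_floor_iff (Real.exp_pos _).le]
  constructor
  · rintro ⟨h1, h2⟩; exact ⟨⟨h1.one_lt.le, h2⟩, h1⟩
  · rintro ⟨⟨_, h1⟩, h2⟩; exact ⟨h2, h1⟩

lemma sum_bound : ∃ C : ℝ, 0 ≤ C ∧ ∀ n : ℕ, 1 ≤ n →
    |∑ p ∈ Sm n, (1 : ℝ) / p - Real.log n| ≤ C := by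
  obtain ⟨C, hC0, hC⟩ := Pr_bound
  refine ⟨C + |∑ p ∈ Sm 1, (1 : ℝ) / p|, by positivity, fun n hn => ?_⟩
  rcases Nat.lt_or_ge n 2 with h | h
  · have : n = 1 := by omega
    subst this
    simp only [Nat.cast_one, Real.log_one, sub_zero]
    linarith
  · rw [sum_Sm n]
    have h2 : (2 : ℝ) ≤ n := by exact_mod_cast h
    have h3 : 3 ≤ Real.exp n := by
      have := Real.add_one_le_exp (n : ℝ)
      linarith
    have h4 := hC (Real.exp n) h3
    rw [Real.log_exp] at h4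
    have := abs_nonneg (∑ p ∈ Sm 1, (1 : ℝ) / p)
    linarith

lemma sq_sum : ∃ C : ℝ, 0 ≤ C ∧ ∀ s : Finset ℕ, ∑ p ∈ s, (1 : ℝ) / (p : ℝ) ^ 2 ≤ C := by
  have hs : Summable (fun n : ℕ => 1 / (n : ℝ) ^ 2) := Real.summable_one_div_nat_pow.2 (by norm_num)
  exact ⟨_, tsum_nonneg fun n => by positivity, fun s => hs.sum_le_tsum s fun n _ => by positivity⟩

lemma log_sum : ∃ C : ℝ, 0 ≤ C ∧ ∀ n : ℕ, 1 ≤ n →
    ∑ p ∈ Sm n, Real.log p / p ≤ C * n := by
  obtain ⟨C, hC⟩ := Pool.Agent.Helper256.KM.mertens_log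
  have hC0 : 0 ≤ C := (abs_nonneg _).trans (hC 1 le_rfl)
  refine ⟨C + 1, by linarith, fun n hn => ?_⟩
  have hn' : (1 : ℝ) ≤ n := by exact_mod_cast hn
  have h1 : 1 ≤ ⌊Real.exp n⌋₊ := by
    rw [Nat.one_le_floor_iff]
    exact Real.one_le_exp (by linarith)
  have h2 := hC _ h1
  have e : ∑ p ∈ Sm n, Real.log p / p =
      ∑ p ∈ (Icc 1 ⌊Real.exp n⌋₊).filter Nat.Prime, Real.log p / p := by
    refine sum_congr ?_ fun _ _ => rfl
    ext p
    rw [mem_Sm, mem_filter, mem_Icc, Nat.le_floor_iff (Real.exp_pos _).le]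
    constructor
    · rintro ⟨h1, h2⟩; exact ⟨⟨h1.one_lt.le, h2⟩, h1⟩
    · rintro ⟨⟨_, h1⟩, h2⟩; exact ⟨h2, h1⟩
  rw [e]
  have h3 : Real.log (⌊Real.exp n⌋₊ : ℝ) ≤ n := by
    rw [Real.log_le_iff_le_exp (by exact_mod_cast h1)]
    exact Nat.floor_le (Real.exp_pos _).le
  have h4 := (abs_le.1 h2).2
  nlinarith

lemma theta_exp (n : ℕ) : Chebyshev.theta (Real.exp n) = ∑ p ∈ Sm n, Real.log p := by
  rw [Chebyshev.theta_eq_sum_Icc]
  refine sum_congr ?_ fun _ _ => rfl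
  ext p
  rw [mem_Sm, mem_filter, mem_Icc, Nat.le_floor_iff (Real.exp_pos _).le]
  constructor
  · rintro ⟨⟨_, h1⟩, h2⟩; exact ⟨h2, h1⟩
  · rintro ⟨h1, h2⟩; exact ⟨⟨Nat.zero_le _, h2⟩, h1⟩

lemma theta_diff (j : ℕ) : Chebyshev.theta (Real.exp ((j + 1 : ℕ) : ℝ)) -
    Chebyshev.theta (Real.exp (j : ℝ)) = ∑ p ∈ Pm j (j + 1), Real.log p := by
  rw [theta_exp, theta_exp, Pm_eq, ← sum_sdiff (Sm_sub (Nat.le_succ j)), add_sub_cancel_right]

lemma card_upper (j : ℕ) (hj : 1 ≤ j) :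
    ((Pm j (j + 1)).card : ℝ) ≤ 5 * Real.exp j / j := by
  have hj' : (1 : ℝ) ≤ j := by exact_mod_cast hj
  have h1 : (j : ℝ) * (Pm j (j + 1)).card ≤ ∑ p ∈ Pm j (j + 1), Real.log p := by
    rw [mul_comm, ← nsmul_eq_mul, ← sum_const]
    refine sum_le_sum fun p hp => ?_
    rw [mem_Pm] at hp
    rw [Real.le_log_iff_exp_le (by exact_mod_cast hp.1.pos)]
    exact hp.2.1.le
  rw [← theta_diff] at h1
  have h2 := Chebyshev.theta_le_log4_mul_x (x := Real.exp ((j + 1 : ℕ) : ℝ)) (Real.exp_pos _).le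
  have h3 := Chebyshev.theta_nonneg (Real.exp (j : ℝ))
  have h4 : Real.log 4 ≤ 1.4 := by
    have e : Real.log 4 = 2 * Real.log 2 := by
      rw [show (4 : ℝ) = 2 ^ 2 by norm_num, Real.log_pow]; norm_num
    have := Real.log_two_lt_d9
    rw [e]
    norm_num at this ⊢
    linarith
  have h5 : Real.exp ((j + 1 : ℕ) : ℝ) ≤ 2.72 * Real.exp j := by
    push_cast
    rw [Real.exp_add, mul_comm]
    have := Real.exp_one_lt_d9
    refine mul_le_mul_of_nonneg_right ?_ (Real.exp_pos _).le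
    norm_num at this ⊢
    linarith
  rw [le_div_iff₀ (by linarith)]
  have h6 : Real.log 4 * Real.exp ((j + 1 : ℕ) : ℝ) ≤ 1.4 * (2.72 * Real.exp j) :=
    mul_le_mul h4 h5 (Real.exp_pos _).le (by norm_num)
  have h7 := Real.exp_pos (j : ℝ)
  have h8 : (1.4 : ℝ) * (2.72 * Real.exp j) ≤ 5 * Real.exp j := by
    norm_num
    nlinarith
  linarith

lemma card_lower (j : ℕ) (hj : 200 ≤ j) :
    Real.exp j / (10 * j) ≤ (Pm j (j + 1)).card := by
  have hj' : (200 : ℝ) ≤ j := by exact_mod_cast hj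
  have h1 : ∑ p ∈ Pm j (j + 1), Real.log p ≤ ((j : ℝ) + 1) * (Pm j (j + 1)).card := by
    rw [mul_comm, ← nsmul_eq_mul, ← sum_const]
    refine sum_le_sum fun p hp => ?_
    rw [mem_Pm] at hp
    rw [Real.log_le_iff_le_exp (by exact_mod_cast hp.1.pos)]
    have := hp.2.2
    push_cast at this
    exact this
  rw [← theta_diff] at h1
  set E := Real.exp (j : ℝ) with hE
  have hE0 : 0 < E := Real.exp_pos _
  set x := Real.exp ((j + 1 : ℕ) : ℝ) with hx
  have hx1 : 1 ≤ x := Real.one_le_exp (by positivity)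
  have h2 := Chebyshev.theta_ge' hx1
  have h3 := Chebyshev.theta_le_log4_mul_x (x := E) hE0.le
  have hxE : x = Real.exp 1 * E := by
    rw [hx, hE, ← Real.exp_add]; push_cast; ring_nf
  have hlogx : Real.log x = j + 1 := by rw [hx, Real.log_exp]; push_cast; ring
  have e1 := Real.exp_one_gt_d9
  have e2 := Real.exp_one_lt_d9
  have l1 := Real.log_two_gt_d9
  have l2 := Real.log_two_lt_d9
  have l4 : Real.log 4 = 2 * Real.log 2 := by
    rw [show (4 : ℝ) = 2 ^ 2 by norm_num, Real.log_pow]; norm_num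
  -- the small terms
  have s1 : Real.log (x + 2) ≤ j + 3 := by
    have h5 : Real.log (x + 2) ≤ Real.log (Real.exp 2 * x) := by
      refine Real.log_le_log (by linarith) ?_
      have := Real.add_one_le_exp (2 : ℝ)
      nlinarith
    rw [Real.log_mul (Real.exp_pos _).ne' (by linarith), Real.log_exp, hlogx] at h5
    linarith
  have hsq : √x ≤ 2 * Real.exp (j / 2) := by
    rw [Real.sqrt_le_left (by positivity), mul_pow, ← Real.exp_nat_mul]
    have : ((2 : ℕ) : ℝ) * ((j : ℝ) / 2) = j := by push_cast; ring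
    rw [this, ← hE, hxE]
    nlinarith
  have hq := Real.quadratic_le_exp_of_nonneg (x := (j : ℝ) / 2) (by positivity)
  set e := Real.exp ((j : ℝ) / 2) with he
  have hEe : E = e * e := by
    rw [hE, he, ← Real.exp_add]; ring_nf
  have hebig : 25 * (j + 1) ≤ e := by nlinarith
  have he0 : 0 < e := Real.exp_pos _
  have s2 : 2 * √x * Real.log x ≤ 4 * (j + 1) * e := by
    rw [hlogx]
    have := mul_le_mul_of_nonneg_right hsq (by linarith : (0 : ℝ) ≤ 2 * ((j : ℝ) + 1))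
    nlinarith
  have s3 : 4 * (j + 1) * e ≤ 4 / 25 * E := by
    rw [hEe]; nlinarith
  have s4 : (j : ℝ) + 4 ≤ 1 / 100 * E := by
    rw [hEe]; nlinarith
  have main : (1 / 5 : ℝ) * E ≤ ((j : ℝ) + 1) * (Pm j (j + 1)).card := by
    have g1 : (x - 1) * Real.log 2 ≥ x * Real.log 2 - 1 := by nlinarith
    have g2 : x * Real.log 2 - Real.log 4 * E = (Real.exp 1 - 2) * Real.log 2 * E := by
      rw [hxE, l4]; ring
    have g3 : (1 / 2.1 : ℝ) ≤ (Real.exp 1 - 2) * Real.log 2 := by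
      norm_num at e1 l1 ⊢
      nlinarith
    have g4 : (1 / 2.1 : ℝ) * E ≤ (Real.exp 1 - 2) * Real.log 2 * E :=
      mul_le_mul_of_nonneg_right g3 hE0.le
    norm_num at g4
    linarith
  rw [div_le_iff₀ (by positivity)]
  have hc : (0 : ℝ) ≤ (Pm j (j + 1)).card := Nat.cast_nonneg _
  nlinarith

theorem nt : S_NT := by
  obtain ⟨C1, hC1, h1⟩ := sum_bound
  obtain ⟨C2, hC2, h2⟩ := sq_sum
  obtain ⟨C3, hC3, h3⟩ := log_sum
  have hdiff : ∀ m n : ℕ, 1 ≤ m → m ≤ n →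
      Real.log n - Real.log m - 2 * C1 ≤ ∑ p ∈ Pm m n, 1 / (p : ℝ) := by
    intro m n hm hmn
    have e : ∑ p ∈ Pm m n, 1 / (p : ℝ) = ∑ p ∈ Sm n, 1 / (p : ℝ) - ∑ p ∈ Sm m, 1 / (p : ℝ) := by
      rw [Pm_eq, ← sum_sdiff (Sm_sub hmn), add_sub_cancel_right]
    rw [e]
    have a1 := (abs_le.1 (h1 n (hm.trans hmn))).1
    have a2 := (abs_le.1 (h1 m hm)).2
    linarith
  set C : ℝ := Real.exp C1 + 4 * C1 + 2 * C2 + C3 + 10 with hC
  have he1 : 0 < Real.exp C1 := Real.exp_pos _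
  have hC10 : 10 ≤ C := by linarith
  refine ⟨C, by linarith, ?_, ?_, ?_, ?_, ?_⟩
  · intro n hn
    have hn' : (1 : ℝ) ≤ n := by exact_mod_cast hn
    unfold ZZ
    calc ∏ p ∈ Sm n, (1 + 1 / (p : ℝ)) ≤ ∏ p ∈ Sm n, Real.exp (1 / (p : ℝ)) := by
          refine prod_le_prod (fun p _ => by positivity) fun p _ => ?_
          have := Real.add_one_le_exp (1 / (p : ℝ))
          linarith
      _ = Real.exp (∑ p ∈ Sm n, 1 / (p : ℝ)) := (Real.exp_sum _ _).symm
      _ ≤ Real.exp (Real.log n + C1) := by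
          rw [Real.exp_le_exp]
          linarith [(abs_le.1 (h1 n hn)).2]
      _ = n * Real.exp C1 := by rw [Real.exp_add, Real.exp_log (by linarith)]
      _ ≤ C * n := by
          rw [mul_comm]
          exact mul_le_mul_of_nonneg_right (by linarith) (by linarith)
  · intro m n hm hmn
    linarith [hdiff m n hm hmn]
  · intro m n hm hmn
    have hn' : (1 : ℝ) ≤ n := by exact_mod_cast hm.trans hmn
    have key : ∀ p ∈ Pm m n, 2 * (1 / (p : ℝ)) - 2 * (1 / (p : ℝ) ^ 2) -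
        1 / n * (Real.log p / p) ≤ 2 * Real.sinc (1 / n * Real.log p) / ((p : ℝ) + 1) := by
      intro p hp
      rw [mem_Pm] at hp
      have hp2 : (2 : ℝ) ≤ p := by exact_mod_cast hp.1.two_le
      have hlp0 : 0 < Real.log p := Real.log_pos (by linarith)
      have hlpn : Real.log p ≤ n := by
        rw [Real.log_le_iff_le_exp (by linarith)]
        exact hp.2.2
      set x : ℝ := 1 / n * Real.log p with hx
      have hx0 : 0 < x := by positivity
      have hx1 : x ≤ 1 := by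
        rw [hx, one_div, inv_mul_le_iff₀ (by linarith)]
        linarith
      have hs : 1 - x / 4 ≤ Real.sinc x := by
        rw [Real.sinc_of_ne_zero hx0.ne', le_div_iff₀ hx0]
        have := Real.sin_gt_sub_cube hx0
        have hx3 : x ^ 3 ≤ x ^ 2 := by nlinarith
        nlinarith
      have h5 : 2 * (1 - x / 4) / ((p : ℝ) + 1) ≤ 2 * Real.sinc x / ((p : ℝ) + 1) :=
        div_le_div_of_nonneg_right (by linarith) (by linarith)
      refine le_trans ?_ h5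
      have h6 : 1 / n * (Real.log p / p) = x / p := by rw [hx]; ring
      rw [h6]
      have h7 : 2 * (1 - x / 4) / ((p : ℝ) + 1) - (2 * (1 / (p : ℝ)) - 2 * (1 / (p : ℝ) ^ 2) - x / p) =
          (2 + x * p / 2 * p + x * p) / ((p : ℝ) ^ 2 * (p + 1)) := by
        field_simp
        ring
      have h8 : 0 ≤ (2 + x * p / 2 * p + x * p) / ((p : ℝ) ^ 2 * (p + 1)) := by positivity
      linarith
    have hsum := sum_le_sum key
    rw [sum_sub_distrib, sum_sub_distrib, ← mul_sum, ← mul_sum, ← mul_sum] at hsum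
    have a1 := hdiff m n hm hmn
    have a2 := h2 (Pm m n)
    have a3 : ∑ p ∈ Pm m n, Real.log p / p ≤ C3 * n := by
      refine le_trans ?_ (h3 n (hm.trans hmn))
      rw [Pm_eq]
      refine sum_le_sum_of_subset_of_nonneg sdiff_subset fun p hp _ => ?_
      have : (1 : ℝ) ≤ p := by exact_mod_cast (mem_Sm.1 hp).1.one_lt.le
      exact div_nonneg (Real.log_nonneg this) (by linarith)
    have a4 : 1 / (n : ℝ) * ∑ p ∈ Pm m n, Real.log p / p ≤ C3 := by
      rw [one_div, inv_mul_le_iff₀ (by linarith)]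
      linarith
    linarith
  · intro j hj
    refine (card_upper j hj).trans ?_
    have hj' : (1 : ℝ) ≤ j := by exact_mod_cast hj
    exact div_le_div_of_nonneg_right
      (mul_le_mul_of_nonneg_right (by linarith) (Real.exp_pos _).le) (by linarith)
  · filter_upwards [eventually_ge_atTop 200] with j hj
    refine le_trans ?_ (card_lower j hj)
    have hj' : (200 : ℝ) ≤ j := by exact_mod_cast hj
    exact div_le_div_of_nonneg_left (Real.exp_pos _).le (by positivity)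
      (mul_le_mul_of_nonneg_right hC10 (by linarith))

end Pool.Agent.W597.NV
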